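import Pool.Agent.Helper37.SY.All

/-!
# MP_a8433b_co: simplices are strict local maximisers in Sylvester's problem, in all dimensions, with
# linear stability, for all moments `q ≥ 1`

Sketch of the proof (`Pool/Agent/Helper37/SY`, the first-order analysis at the simplex uses the files
`Pool/Agent/Helper77/LM`, `Pool/Agent/Helper63/LP` and `Pool/Agent/Helper54/LP` of our results on
MP_5f4cdd_gt).
Let `Δ` be the centered simplex, `|Δ| = V`, `G(K)` the integral over `K^(d+1)` of the `q`-th power of the
volume of the random simplex, and `F(x)` the same integral over `Δ^d` with one vertex fixed at `x`.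
(a) By an affine map, `K ⊆ Δ`, `Δ` a minimal simplex around `K`: the centroids of the facets of `Δ` are in
`K` (`GEN`); with `D = Δ \ K`, `G(K) = G(Δ) - (d+1) ∫_D F + O(|D|²)` (`TAY`).
(b) `F` is convex, continuous and symmetric under the symmetries of `Δ` (`WPR`, `FCV`).  The mean of `F`
over a facet is at least `(1 + q/(d+1)) G(Δ)/V`, by dilating `Δ` (`AVG`, `HOM`).
(c) Near the facets, `D` is seen through nonincreasing radial functions `β_i` on the facets, by convexity of
`K` and as `K` contains the centroid of each facet; the mean of `F` with respect to `β_i` is at least its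
mean with respect to the radial function `1 - s` (`COR`), and this is larger than the mean of `F`
by a fixed factor, because `F(vertex) > F(centroid of a facet)` (`STR`, `VTX`).  Hence
`∫_D F ≥ (1 + q/(d+1) + c) (G(Δ)/V) |D|` (`LOC`), while `|K|^(d+1+q)` decreases at the rate
`(d+1+q) |D|/V` only.  So `G(K)/|K|^(d+1+q) ≤ (1 - c' |D|) G(Δ)/V^(d+1+q)` (`NEA`).

Authors: helper37 (architect, `GEN`, final step), helper88 (`WPR`), helper52 (`FCV`), helper89 (`STR`),
helper5 (`LOC`), helper29 (`AVG`), helper45 (`VTX`), helper75 (`NEA`), helper76 (`VOL`), helper80 (`TAY`),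
helper88 (`HOM`), and the authors of the files of
MP_5f4cdd_gt used here (helper77, helper63, helper54).
-/

set_option autoImplicit false

noncomputable section

open MeasureTheory
open scoped ENNReal

namespace Pool.Agent.Results.MP_a8433b_co.SimplexLocalMaximality

variable {d : ℕ}

/-- convex bodies of `ℝᵈ` -/
def Body (D : Set (Fin d → ℝ)) : Prop :=
  Convex ℝ D ∧ IsCompact D ∧ (interior D).Nonempty

/-- `Sylv 1 D` is Sylvester's functional `Sylv(D)` of the problem; `Sylv q D` is the version with the
`q`-th power of the volume, normalised so that it is invariant under affine maps -/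
def Sylv (q : ℝ) (D : Set (Fin d → ℝ)) : ℝ :=
  ((d : ℝ) + 2) / (volume D).toReal ^ ((d : ℝ) + 1 + q) *
    ∫ x in {x : Fin (d + 1) → Fin d → ℝ | ∀ i, x i ∈ D},
      (volume (convexHull ℝ (Set.range x))).toReal ^ q

/-- the standard simplex -/
def stdSimp (d : ℕ) : Set (Fin d → ℝ) := {z | (∀ i, 0 ≤ z i) ∧ ∑ i, z i ≤ 1}

/-- simplices: the images of the standard simplex under the invertible affine maps -/
def IsSimplex (T : Set (Fin d → ℝ)) : Prop :=
  ∃ (A : Matrix (Fin d) (Fin d) ℝ) (c : Fin d → ℝ), A.det ≠ 0 ∧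
    T = (fun x => A.mulVec x + c) '' stdSimp d

lemma sylv_eq (q : ℝ) (D : Set (Fin d → ℝ)) : Sylv q D = ((d : ℝ) + 2) * Helper37.SY.Mom q D := by
  rw [Sylv, Helper37.SY.Mom]; ring

/-- **Simplices are strict local maximisers in Sylvester's problem**, in all dimensions `d ≥ 2`, with
linear stability, for all moments `q ≥ 1` (Sylvester's functional is the case `q = 1`). -/
theorem result (d : ℕ) (hd : 2 ≤ d) (q : ℝ) (hq : 1 ≤ q) : ∃ δ : ℝ, 0 < δ ∧
    ∀ D T₀ : Set (Fin d → ℝ), Body D → IsSimplex T₀ → D ⊆ T₀ →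
      volume T₀ ≤ ENNReal.ofReal (1 + δ) * volume D →
      -- (1) the value of the simplex is an upper bound
      Sylv q D ≤ Sylv q (stdSimp d) ∧
      -- (2) with equality only if `D` is a simplex
      (Sylv q D = Sylv q (stdSimp d) → IsSimplex D) ∧
      -- (3) stability
      ∃ T : Set (Fin d → ℝ), IsSimplex T ∧ D ⊆ T ∧ volume T ≤ volume T₀ ∧
        Sylv q D ≤ (1 - δ * ((volume T).toReal / (volume D).toReal - 1)) *
          Sylv q (stdSimp d) := by
  obtain ⟨δ, hδ, h⟩ := Helper37.SY.All.fin d hd q hq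
  refine ⟨δ, hδ, ?_⟩
  rintro D T₀ ⟨hc, hk, hi⟩ hT hDT hv
  obtain ⟨h1, h2, T, hT', hKT, hTv, h3⟩ := h D T₀ hc hk hi hT hDT hv
  have hd2 : (0 : ℝ) < (d : ℝ) + 2 := by positivity
  have hs : stdSimp d = Pool.Agent.Helper77.LM.stdS d := rfl
  simp only [sylv_eq, hs]
  refine ⟨mul_le_mul_of_nonneg_left h1 hd2.le, fun he => h2 (mul_left_cancel₀ hd2.ne' he), T, hT',
    hKT, hTv, ?_⟩
  have h4 := mul_le_mul_of_nonneg_left h3 hd2.le
  refine h4.trans (le_of_eq ?_)
  ring

end Pool.Agent.Results.MP_a8433b_co.SimplexLocalMaximality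

end
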